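import Pool.Agent.H64.PNG.Proof

/-!
# Two Grothendieck spaces whose product is not weakly Grothendieck

We construct (in ZFC) Tychonoff spaces `X`, `Y` which are Grothendieck in the sense of
Arhangel'skii and whose product is not even weakly Grothendieck. The proof is in
`Pool/Agent/H64/PNG/Proof.lean` (same definitions).
-/

open Topology Filter Set

namespace Pool.Agent.Results.MP_20595b_gt.ProductNotGrothendieck

/-- `Cp X` is `C_p(X)`: the continuous functions `X → ℝ` with the topology of pointwise
convergence, that is, with the subspace topology inherited from the product `ℝ^X`. -/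
abbrev Cp (X : Type*) [TopologicalSpace X] : Type _ := {f : X → ℝ // Continuous f}

/-- `A` is countably compact in `Z`: every infinite subset of `A` has an accumulation point
in `Z`. -/
def CountablyCompactIn {Z : Type*} [TopologicalSpace Z] (A : Set Z) : Prop :=
  ∀ S : Set Z, S ⊆ A → S.Infinite → ∃ z : Z, AccPt z (𝓟 S)

/-- `Z` is a g-space: the closure of `A` is compact for every `A ⊆ Z` that is countably
compact in `Z`. -/
def IsGSpace (Z : Type*) [TopologicalSpace Z] : Prop :=
  ∀ A : Set Z, CountablyCompactIn A → IsCompact (closure A)

/-- `Z` is a hereditarily g-space: every subspace of `Z` is a g-space. -/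
def IsHereditarilyGSpace (Z : Type*) [TopologicalSpace Z] : Prop :=
  ∀ B : Set Z, IsGSpace B

/-- `X` is a Grothendieck space: `C_p(X)` is a hereditarily g-space. -/
def IsGrothendieck (X : Type*) [TopologicalSpace X] : Prop := IsHereditarilyGSpace (Cp X)

/-- `X` is a weakly Grothendieck space: `C_p(X)` is a g-space. -/
def IsWeaklyGrothendieck (X : Type*) [TopologicalSpace X] : Prop := IsGSpace (Cp X)

/-- Every Grothendieck space is weakly Grothendieck (so the result also gives a product that is
not Grothendieck). -/
theorem IsGrothendieck.isWeaklyGrothendieck {X : Type*} [TopologicalSpace X]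
    (h : IsGrothendieck X) : IsWeaklyGrothendieck X :=
  Pool.H64.PNG.IsGrothendieck.isWeaklyGrothendieck h

/-- Grothendieck, Pryce, Asanov–Velichko: a space with a dense subset all of whose
sequences cluster in the space is a Grothendieck space. -/
theorem isGrothendieck_of_dense {X : Type*} [TopologicalSpace X] {S : Set X} (hS : Dense S)
    (hcc : ∀ x : ℕ → X, (∀ n, x n ∈ S) → ∃ y, MapClusterPt y atTop x) : IsGrothendieck X :=
  Pool.H64.PNG.isGrothendieck_of_dense hS hcc

/-- There are Tychonoff spaces `X` and `Y`, both Grothendieck, such that `X × Y` is not weakly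
Grothendieck. -/
theorem result : ∃ (X Y : Type) (_ : TopologicalSpace X) (_ : TopologicalSpace Y),
    T35Space X ∧ T35Space Y ∧ IsGrothendieck X ∧ IsGrothendieck Y ∧
      ¬ IsWeaklyGrothendieck (X × Y) := by
  obtain ⟨X, Y, tX, tY, h1, h2, h3, h4, h5⟩ := Pool.H64.PNG.result
  exact ⟨X, Y, tX, tY, h1, h2, h3, h4, h5⟩

end Pool.Agent.Results.MP_20595b_gt.ProductNotGrothendieck
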